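import Pool.Agent.U849.FO.Qu7
import Pool.Agent.U849.SS.Burn

/-!
# Matrices whose adjoint matrix is unipotent
-/

set_option autoImplicit false
set_option linter.unusedSectionVars false

namespace Pool.Agent.U849.PJ

open Module Polynomial
open scoped Kronecker

section

variable {k : Type} [Field k] [CharZero k] {V : Type} [AddCommGroup V] [Module k V] [FiniteDimensional k V]

/-- an endomorphism all of whose powers have the trace of the identity is unipotent -/
theorem uni_of_trace {B : End k V} (h : ∀ m : ℕ, LinearMap.trace k V (B ^ m) = finrank k V) :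
    IsNilpotent (B - 1) := by
  have hp : ∀ p : k[X], LinearMap.trace k V (aeval B p) = p.eval 1 * finrank k V := by
    intro p
    induction p using Polynomial.induction_on' with
    | add p q hp hq => rw [map_add, map_add, hp, hq, eval_add, add_mul]
    | monomial m a =>
      rw [aeval_monomial, eval_monomial, one_pow, mul_one, ← Algebra.smul_def, map_smul, h, smul_eq_mul]
  have hB0 : B.charpoly ≠ 0 := (LinearMap.charpoly_monic B).ne_zero
  obtain ⟨q, hq, hq1⟩ := exists_eq_pow_rootMultiplicity_mul_and_not_dvd B.charpoly hB0 1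
  set a := rootMultiplicity 1 B.charpoly with ha
  have hcop : IsCoprime ((X - C (1 : k)) ^ (a + 1)) q := by
    apply IsCoprime.pow_left
    exact (irreducible_X_sub_C (1 : k)).coprime_iff_not_dvd.2 hq1
  obtain ⟨u, v, huv⟩ := hcop
  set e : End k V := aeval B (u * (X - C (1 : k)) ^ (a + 1)) with he
  set e' : End k V := aeval B (v * q) with he'
  have hsum : e + e' = 1 := by
    rw [he, he', ← map_add, huv, map_one]
  have hCH : aeval B B.charpoly = 0 := LinearMap.aeval_self_charpoly B
  have hee' : e * e' = 0 := by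
    rw [he, he', ← map_mul]
    have h1 : u * (X - C (1 : k)) ^ (a + 1) * (v * q) = (u * v * (X - C (1 : k))) * B.charpoly := by
      rw [hq]; ring
    rw [h1, map_mul, hCH, mul_zero]
  have hid : e * e = e := by
    have h1 : e * (e + e') = e := by rw [hsum, mul_one]
    rwa [mul_add, hee', add_zero] at h1
  have htr : LinearMap.trace k V e = 0 := by
    rw [he, hp]
    simp
  have he0 : e = 0 := by
    have h1 : LinearMap.IsProj (LinearMap.range e) e := by
      refine ⟨fun x => ⟨x, rfl⟩, ?_⟩
      rintro x ⟨y, rfl⟩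
      exact LinearMap.congr_fun hid y
    have h2 := h1.trace
    rw [htr] at h2
    have h3 : finrank k (LinearMap.range e) = 0 := by exact_mod_cast h2.symm
    rw [Submodule.finrank_eq_zero] at h3
    exact LinearMap.range_eq_bot.1 h3
  refine ⟨a, ?_⟩
  have h1 : e' = 1 := by rwa [he0, zero_add] at hsum
  have h2 : aeval B ((X - C (1 : k)) ^ a) = (B - 1) ^ a := by
    rw [map_pow, map_sub, aeval_X, aeval_C, map_one]
  rw [← h2, ← mul_one (aeval B ((X - C (1 : k)) ^ a)), ← h1, he', ← map_mul]
  have h3 : (X - C (1 : k)) ^ a * (v * q) = v * B.charpoly := by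
    rw [hq]; ring
  rw [h3, map_mul, hCH, mul_zero]

end

section

variable {k : Type} [Field k] [IsAlgClosed k] [CharZero k] {n : ℕ}

/-- a matrix whose adjoint matrix is unipotent has a single eigenvalue -/
theorem single [NeZero n] {A A' : Matrix (Fin n) (Fin n) k} (hA : A' * A = 1)
    (h : IsNilpotent (A ⊗ₖ A'.transpose - 1)) :
    ∃ c : k, c ≠ 0 ∧ IsNilpotent (A - c • (1 : Matrix (Fin n) (Fin n) k)) := by
  have hn : Nonempty (Fin n) := ⟨0⟩
  obtain ⟨c, hc⟩ := Module.End.exists_eigenvalue (Matrix.toLin' A)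
  obtain ⟨v, hv⟩ := hc.exists_hasEigenvector
  have hv1 : A.mulVec v = c • v := by
    have := hv.apply_eq_smul
    rwa [Matrix.toLin'_apply] at this
  have hv0 : v ≠ 0 := hv.2
  obtain ⟨i, hi⟩ := Function.ne_iff.1 hv0
  let T : (Fin n → k) → (Fin n × Fin n → k) := fun w p => v p.1 * w p.2
  have hT : ∀ w, T w = 0 → w = 0 := by
    intro w hw
    funext j
    have h1 := congrFun hw (i, j)
    exact (mul_eq_zero.1 h1).resolve_left hi
  set Y : Matrix (Fin n) (Fin n) k := c • A'.transpose with hY
  have hstep : ∀ w, (A ⊗ₖ A'.transpose - 1).mulVec (T w) = T ((Y - 1).mulVec w) := by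
    intro w
    have h1 : (A ⊗ₖ A'.transpose).mulVec (T w) = T (Y.mulVec w) := by
      funext p
      have h2 : (A ⊗ₖ A'.transpose).mulVec (T w) p = (A.mulVec v p.1) * (A'.transpose.mulVec w p.2) := by
        simp only [Matrix.mulVec, dotProduct, Matrix.kroneckerMap_apply, T, Fintype.sum_prod_type,
          Finset.sum_mul_sum]
        refine Finset.sum_congr rfl fun a _ => Finset.sum_congr rfl fun b _ => ?_
        ring
      rw [h2, hv1]
      change c * v p.1 * _ = v p.1 * (Y.mulVec w p.2)
      rw [hY, Matrix.smul_mulVec]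
      change _ = v p.1 * (c * _)
      ring
    rw [Matrix.sub_mulVec, h1, Matrix.one_mulVec, Matrix.sub_mulVec, Matrix.one_mulVec]
    funext p
    simp only [Pi.sub_apply, T]
    ring
  obtain ⟨N, hN⟩ := h
  have hpow : ∀ (m : ℕ) (w : Fin n → k), ((A ⊗ₖ A'.transpose - 1) ^ m).mulVec (T w) =
      T (((Y - 1) ^ m).mulVec w) := by
    intro m
    induction m with
    | zero => intro w; rw [pow_zero, pow_zero, Matrix.one_mulVec, Matrix.one_mulVec]
    | succ m ih =>
      intro w
      rw [pow_succ, pow_succ, ← Matrix.mulVec_mulVec, hstep, ih, ← Matrix.mulVec_mulVec]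
  have hY0 : (Y - 1) ^ N = 0 := by
    apply Matrix.toLin'.injective
    apply LinearMap.ext
    intro w
    rw [Matrix.toLin'_apply, map_zero, LinearMap.zero_apply]
    apply hT
    rw [← hpow, hN, Matrix.zero_mulVec]
  have h3 : (c • A' - 1) ^ N = 0 := by
    have h4 : (c • A' - 1) = (Y - 1).transpose := by
      rw [hY, Matrix.transpose_sub, Matrix.transpose_smul, Matrix.transpose_transpose, Matrix.transpose_one]
    rw [h4, ← Matrix.transpose_pow, hY0, Matrix.transpose_zero]
  have hc0 : c ≠ 0 := by
    intro h0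
    have h5 : A'.mulVec (A.mulVec v) = v := by rw [Matrix.mulVec_mulVec, hA, Matrix.one_mulVec]
    rw [hv1, h0, zero_smul, Matrix.mulVec_zero] at h5
    exact hv0 h5.symm
  have hA2 : A * A' = 1 := mul_eq_one_comm.1 hA
  refine ⟨c, hc0, N, ?_⟩
  have hcomm : Commute A (c • A' - 1) := by
    change A * (c • A' - 1) = (c • A' - 1) * A
    rw [mul_sub, sub_mul, mul_smul_comm, smul_mul_assoc, hA, hA2, mul_one, one_mul]
  have h6 : A - c • (1 : Matrix (Fin n) (Fin n) k) = -(A * (c • A' - 1)) := by
    rw [mul_sub, mul_smul_comm, hA2, mul_one, neg_sub]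
  rw [h6, neg_pow, hcomm.mul_pow, h3, mul_zero, mul_zero]

theorem trace_of_nil {V : Type} [AddCommGroup V] [Module k V] [FiniteDimensional k V] {f : End k V} {c : k}
    (h : IsNilpotent (f - c • (1 : End k V))) : LinearMap.trace k V f = finrank k V * c := by
  have h2 := (LinearMap.isNilpotent_trace_of_isNilpotent h).eq_zero
  rw [map_sub, map_smul, LinearMap.trace_one, sub_eq_zero] at h2
  rw [h2, smul_eq_mul, mul_comm]

theorem mtrace_of_nil {A : Matrix (Fin n) (Fin n) k} {c : k}
    (h : IsNilpotent (A - c • (1 : Matrix (Fin n) (Fin n) k))) : A.trace = n * c := by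
  have h1 := (Matrix.isNilpotent_trace_of_isNilpotent h).eq_zero
  rw [Matrix.trace_sub, Matrix.trace_smul, Matrix.trace_one, sub_eq_zero, Fintype.card_fin] at h1
  rw [h1, smul_eq_mul, mul_comm]

theorem det_of_nil {A : Matrix (Fin n) (Fin n) k} {c : k}
    (h : IsNilpotent (A - c • (1 : Matrix (Fin n) (Fin n) k))) : A.det = c ^ n := by
  rw [Matrix.det_eq_prod_roots_charpoly]
  have hcard : A.charpoly.roots.card = n := by
    have h1 := (IsAlgClosed.splits A.charpoly).natDegree_eq_card_roots
    rw [← h1, Matrix.charpoly_natDegree_eq_dim, Fintype.card_fin]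
  have hall : ∀ x ∈ A.charpoly.roots, x = c := by
    intro x hx
    have h1 : A.charpoly.IsRoot x := isRoot_of_mem_roots hx
    have h2 : Module.End.HasEigenvalue (Matrix.toLin' A) x := by
      rw [Module.End.hasEigenvalue_iff_isRoot_charpoly, Matrix.charpoly_toLin']
      exact h1
    obtain ⟨v, hv⟩ := h2.exists_hasEigenvector
    have hv1 : A.mulVec v = x • v := by
      have := hv.apply_eq_smul
      rwa [Matrix.toLin'_apply] at this
    obtain ⟨N, hN⟩ := h
    have h3 : ∀ m : ℕ, ((A - c • (1 : Matrix (Fin n) (Fin n) k)) ^ m).mulVec v = (x - c) ^ m • v := by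
      intro m
      induction m with
      | zero => rw [pow_zero, pow_zero, Matrix.one_mulVec, one_smul]
      | succ m ih =>
        rw [pow_succ, ← Matrix.mulVec_mulVec, Matrix.sub_mulVec, hv1, Matrix.smul_mulVec, Matrix.one_mulVec,
          ← sub_smul, Matrix.mulVec_smul, ih, smul_smul, pow_succ, mul_comm]
    have h4 := h3 N
    rw [hN, Matrix.zero_mulVec] at h4
    have h5 := (smul_eq_zero.1 h4.symm).resolve_right hv.2
    have hN0 : N ≠ 0 := by
      rintro rfl
      rw [pow_zero] at h5
      exact one_ne_zero h5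
    exact sub_eq_zero.1 ((pow_eq_zero_iff hN0).1 h5)
  rw [Multiset.eq_replicate.2 ⟨hcard, hall⟩, Multiset.prod_replicate]

end

end Pool.Agent.U849.PJ
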