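import Pool.Agent.U849.PJ.Gal

/-!
# The cover of a compact group by the `n`-th roots of the determinant
-/

set_option autoImplicit false
set_option linter.unusedSectionVars false

namespace Pool.Agent.U849.PJ

open Filter Topology Module

theorem two_factors {X : Type} (f : Ultrafilter X) {u v : X → ℝ} (hu : ∀ x, 0 ≤ u x) (hv : ∀ x, 0 ≤ v x)
    (h : Tendsto (fun x => u x * v x) f (𝓝 0)) : Tendsto u f (𝓝 0) ∨ Tendsto v f (𝓝 0) := by
  by_contra hcon
  push Not at hcon
  obtain ⟨h1, h2⟩ := hcon
  have aux : ∀ w : X → ℝ, (∀ x, 0 ≤ w x) → ¬ Tendsto w f (𝓝 0) → ∃ ε > 0, ∀ᶠ x in (f : Filter X), ε ≤ w x := by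
    intro w hw hnt
    by_contra hc
    push Not at hc
    apply hnt
    rw [Metric.tendsto_nhds]
    intro ε hε
    have h3 := hc ε hε
    refine h3.mono fun x hx => ?_
    rw [Real.dist_eq, sub_zero, abs_of_nonneg (hw x)]
    exact hx
  obtain ⟨ε, hε, h3⟩ := aux u hu h1
  obtain ⟨ε', hε', h4⟩ := aux v hv h2
  have h5 : ∀ᶠ x in (f : Filter X), u x * v x < ε * ε' := h.eventually_lt_const (mul_pos hε hε')
  obtain ⟨x, hx3, hx4, hx5⟩ := (h3.and (h4.and h5)).exists
  have := mul_le_mul hx3 hx4 hε'.le (hu x)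
  linarith

theorem many_factors {X k : Type} [NormedField k] (f : Ultrafilter X) (z : X → k) (s : Multiset k)
    (h : Tendsto (fun x => ‖(s.map fun r => z x - r).prod‖) f (𝓝 0)) :
    ∃ r ∈ s, Tendsto (fun x => ‖z x - r‖) f (𝓝 0) := by
  induction s using Multiset.induction_on with
  | empty =>
    exfalso
    simp only [Multiset.map_zero, Multiset.prod_zero, norm_one] at h
    exact one_ne_zero (tendsto_nhds_unique tendsto_const_nhds h)
  | cons a s ih =>
    simp only [Multiset.map_cons, Multiset.prod_cons, norm_mul] at h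
    rcases two_factors f (fun x => norm_nonneg _) (fun x => norm_nonneg _) h with h1 | h1
    · exact ⟨a, Multiset.mem_cons_self a s, h1⟩
    · obtain ⟨r, hr, h2⟩ := ih h1
      exact ⟨r, Multiset.mem_cons_of_mem hr, h2⟩

variable {k : Type} [NormedField k] {n : ℕ}
  {G : Type} [Group G] [TopologicalSpace G] [IsTopologicalGroup G]

/-- the pairs `(g, z)` with `z ^ n = δ g` -/
def cov (n : ℕ) (δ : G →* kˣ) : Subgroup (G × kˣ) where
  carrier := {x | x.2 ^ n = δ x.1}
  mul_mem' := by
    intro a b ha hb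
    change (a.2 * b.2) ^ n = δ (a.1 * b.1)
    rw [mul_pow, map_mul]
    exact congrArg₂ (· * ·) ha hb
  one_mem' := by
    change (1 : kˣ) ^ n = δ 1
    rw [one_pow, map_one]
  inv_mem' := by
    intro a ha
    change (a.2⁻¹) ^ n = δ a.1⁻¹
    rw [inv_pow, map_inv]
    exact congrArg _ ha

theorem cov_compact [CompactSpace G] [IsAlgClosed k] (hn : 0 < n) {δ : G →* kˣ} (hδ : Continuous δ) :
    IsCompact (cov n δ : Set (G × kˣ)) := by
  have hemb : IsEmbedding (Prod.map id Units.val : G × kˣ → G × k) :=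
    IsEmbedding.id.prodMap Units.isEmbedding_val₀
  rw [hemb.isInducing.isCompact_iff, isCompact_iff_ultrafilter_le_nhds]
  intro f hf
  obtain ⟨g, -, hg⟩ := (isCompact_univ : IsCompact (Set.univ : Set G)).ultrafilter_le_nhds (f.map Prod.fst) (by simp)
  have hg' : Tendsto (Prod.fst : G × k → G) f (𝓝 g) := hg
  have hmem : ∀ᶠ x in (f : Filter (G × k)), x.2 ^ n = ((δ x.1 : kˣ) : k) := by
    refine Filter.mem_of_superset (le_principal_iff.1 hf) ?_
    rintro _ ⟨⟨a, z⟩, haz, rfl⟩
    have h1 : z ^ n = δ a := haz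
    change ((z : kˣ) : k) ^ n = ((δ a : kˣ) : k)
    rw [← h1, Units.val_pow_eq_pow_val]
  set d : k := ((δ g : kˣ) : k) with hd
  have hδ' : Tendsto (fun x : G × k => ((δ x.1 : kˣ) : k)) f (𝓝 d) :=
    ((Units.continuous_val.comp hδ).tendsto g).comp hg'
  set P : Polynomial k := Polynomial.X ^ n - Polynomial.C d with hP
  have hsp : P = (P.roots.map fun r => Polynomial.X - Polynomial.C r).prod :=
    ((IsAlgClosed.splits P).eq_prod_roots_of_monic (Polynomial.monic_X_pow_sub_C d hn.ne'))
  have hev : ∀ z : k, (P.roots.map fun r => z - r).prod = z ^ n - d := by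
    intro z
    have h1 := congrArg (Polynomial.eval z) hsp
    rw [Polynomial.eval_multiset_prod, Multiset.map_map] at h1
    simp only [Function.comp_def, Polynomial.eval_sub, Polynomial.eval_X, Polynomial.eval_C] at h1
    rw [← h1, hP]
    simp
  have hlim : Tendsto (fun x : G × k => ‖(P.roots.map fun r => x.2 - r).prod‖) f (𝓝 0) := by
    have h1 : Tendsto (fun x : G × k => ‖((δ x.1 : kˣ) : k) - d‖) f (𝓝 0) := by
      have := (hδ'.sub_const d).norm
      rwa [sub_self, norm_zero] at this
    refine h1.congr' (hmem.mono fun x hx => ?_)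
    change _ = ‖(P.roots.map fun r => x.2 - r).prod‖
    rw [hev, hx]
  obtain ⟨r, hr, hr2⟩ := many_factors f (fun x : G × k => x.2) P.roots hlim
  have hrn : r ^ n = d := by
    have h1 := (Polynomial.mem_roots'.1 hr).2
    rw [hP, Polynomial.IsRoot, Polynomial.eval_sub, Polynomial.eval_pow, Polynomial.eval_X,
      Polynomial.eval_C, sub_eq_zero] at h1
    exact h1
  have hr0 : r ≠ 0 := by
    rintro rfl
    rw [zero_pow hn.ne'] at hrn
    exact (δ g).ne_zero hrn.symm
  have hz : Tendsto (fun x : G × k => x.2) f (𝓝 r) := tendsto_iff_norm_sub_tendsto_zero.2 hr2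
  refine ⟨(g, r), ⟨(g, Units.mk0 r hr0), ?_, rfl⟩, ?_⟩
  · change (Units.mk0 r hr0) ^ n = δ g
    apply Units.ext
    rw [Units.val_pow_eq_pow_val]
    exact hrn
  · exact hg'.prodMk_nhds hz

instance cov_td [TotallyDisconnectedSpace G] [IsUltrametricDist k] (δ : G →* kˣ) :
    TotallyDisconnectedSpace (cov n δ) := by
  constructor
  refine isTotallyDisconnected_of_image (f := fun x : cov n δ => ((x : G × kˣ).1, (((x : G × kˣ).2 : kˣ) : k))) ?_ ?_
    (isTotallyDisconnected_of_totallyDisconnectedSpace _)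
  · exact ((continuous_fst.comp continuous_subtype_val).prodMk
      (Units.continuous_val.comp (continuous_snd.comp continuous_subtype_val))).continuousOn
  · intro a b hab
    have h1 := congrArg Prod.fst hab
    have h2 := congrArg Prod.snd hab
    exact Subtype.ext (Prod.ext h1 (Units.ext h2))

end Pool.Agent.U849.PJ
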