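import Pool.Agent.U849.PJ.Grp
import Pool.Agent.U849.FO.Ring

/-!
# Galois representations with many Frobenius elements with eigenvalue ratios of finite order
-/

set_option autoImplicit false
set_option linter.unusedSectionVars false

namespace Pool.Agent.U849.PJ

open Filter Topology Module MeasureTheory MeasureTheory.Measure
open scoped ENNReal
open Pool.Agent.U849.SS (Cts)
open Pool.Agent.U849.FO
open NumberField IsDedekindDomain Pool.Agent.W401.Cheb Pool.Agent.R401.Sup
open Pool.Agent.W569.FM Pool.Agent.R401.Img Pool.Agent.R401.Eng Pool.Agent.R401.Sup2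
open Pool.Agent.R401.Sup3 Pool.Agent.R401.Sup4

variable {F : Type} [Field F] [NumberField F] {n : ℕ} {p : ℕ} [hp : Fact p.Prime]

include hp in
/-- the traces of the adjoint representation are locally constant -/
theorem adj_trace {K : Type} [NontriviallyNormedField K] [CompleteSpace K]
    [NormedAlgebra ℚ_[p] K] [IsAlgClosed K] [CharZero K] (ρ : GK F →* GL (Fin n) K)
    (hρ : Continuous ρ) (θ : ℝ) (hθ0 : 0 ≤ θ) (hθ : θ * (n * n : ℕ) < 1)
    (hdens : ∃ᶠ N : ℕ in atTop, dens (fun v : HeightOneSpectrum (𝓞 F) =>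
      ∃ g, IsFrob v g ∧ ∀ k : ℕ, 0 < k → ∀ c : K,
        ¬ IsNilpotent (((ρ g : GL (Fin n) K) : Matrix (Fin n) (Fin n) K) ^ k -
          c • (1 : Matrix (Fin n) (Fin n) K))) N ≤ θ) :
    ∃ U : Subgroup (GK F), U.Normal ∧ IsOpen (U : Set (GK F)) ∧
      ∀ u ∈ U, ∀ g, (kap K n (ρ (u * g))).trace = (kap K n (ρ g)).trace := by
  classical
  set R : GK F →* Matrix (Fin (n * n)) (Fin (n * n)) K := adm K ρ with hR
  have hRc : Continuous R := adm_cont hρ
  obtain ⟨M, hM, htors⟩ := torsK (p := p) hRc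
  let φ : Matrix (Fin (n * n)) (Fin (n * n)) K →+* End K (Fin (n * n) → K) :=
    ((Matrix.toLinAlgEquiv' : Matrix (Fin (n * n)) (Fin (n * n)) K ≃ₐ[K]
      End K (Fin (n * n) → K)) : _ →+* _)
  have hφ : Function.Injective φ :=
    (Matrix.toLinAlgEquiv' : Matrix (Fin (n * n)) (Fin (n * n)) K ≃ₐ[K]
      End K (Fin (n * n) → K)).injective
  let ρF : GK F →* End K (Fin (n * n) → K) := φ.toMonoidHom.comp R
  have hρF' : ∀ g, ρF g = φ (R g) := fun g => rfl
  have hρF : ∀ g, ρF g = Matrix.toLin' (R g) := fun g => rfl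
  have hcts : Cts ρF := by
    intro φ v
    have h1 : (fun g => φ (ρF g v)) = fun g => ∑ i, (∑ j, R g i j * v j) *
        φ (fun j => if i = j then 1 else 0) := by
      funext g
      rw [LinearMap.pi_apply_eq_sum_univ φ, hρF, Matrix.toLin'_apply]
      rfl
    rw [h1]
    have h4 : ∀ i, Continuous fun g => ∑ j, R g i j * v j := fun i =>
      continuous_finsetSum _ fun j _ => (hRc.matrix_elem i j).mul continuous_const
    exact continuous_finsetSum _ fun i _ => (h4 i).mul continuous_const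
  have hrel : ∀ (g : GK F) (M N : ℕ), (ρF g ^ M - 1) ^ N = φ ((R g ^ M - 1) ^ N) := by
    intro g M N
    rw [map_pow, map_sub, map_pow, map_one, hρF']
  set Good : Set (GK F) := {g | (R g ^ M - 1) ^ (n * n) = 0} with hGood
  have hcl : IsClosed Good := isClosed_singleton.preimage
    (f := fun g => (R g ^ M - 1) ^ (n * n)) (((hRc.pow M).sub continuous_const).pow (n * n))
  have hsub : ∀ g, (∃ k : ℕ, 0 < k ∧ ∃ c : K, IsNilpotent (((ρ g : GL (Fin n) K) :
      Matrix (Fin n) (Fin n) K) ^ k - c • (1 : Matrix (Fin n) (Fin n) K))) → g ∈ Good := by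
    rintro g ⟨k, hk, c, hnil⟩
    refine htors g k (n * n) hk (nil_pow ?_)
    have h1 := nil_scalar hnil
    have h2 : R g ^ k - 1 = Matrix.reindexAlgEquiv K K
        (finProdFinEquiv : Fin n × Fin n ≃ Fin (n * n)) (kap K n (ρ g) ^ k - 1) := by
      rw [map_sub, map_pow, map_one]
      rfl
    rw [h2]
    exact h1.map _
  have hconj : ∀ g ∈ Good, ∀ x : GK F, x * g * x⁻¹ ∈ Good := by
    intro g hg x
    have hg' : (R g ^ M - 1) ^ (n * n) = 0 := hg
    change (R (x * g * x⁻¹) ^ M - 1) ^ (n * n) = 0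
    have hx1 : R x⁻¹ * R x = 1 := by rw [← map_mul, inv_mul_cancel, map_one]
    have hx2 : R x * R x⁻¹ = 1 := by rw [← map_mul, mul_inv_cancel, map_one]
    have hcp : ∀ (a : Matrix (Fin (n * n)) (Fin (n * n)) K) (k : ℕ),
        (R x * a * R x⁻¹) ^ k = R x * a ^ k * R x⁻¹ := by
      intro a k
      induction k with
      | zero => rw [pow_zero, pow_zero, mul_one, hx2]
      | succ k ih =>
        rw [pow_succ, ih, pow_succ]
        simp only [mul_assoc]
        rw [← mul_assoc (R x⁻¹) (R x), hx1, one_mul]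
    rw [map_mul, map_mul, hcp]
    have h1 : R x * R g ^ M * R x⁻¹ - 1 = R x * (R g ^ M - 1) * R x⁻¹ := by
      rw [mul_sub, sub_mul, mul_one, hx2]
    rw [h1, hcp, hg', mul_zero, zero_mul]
  -- the measure
  let _m : MeasurableSpace (GK F) := borel _
  have _b : BorelSpace (GK F) := ⟨rfl⟩
  let K₀ : TopologicalSpace.PositiveCompacts (GK F) := ⊤
  let μ : Measure (GK F) := haarMeasure K₀
  have hμ1 : IsProbabilityMeasure μ := ⟨by
    have h1 := haarMeasure_self (K₀ := K₀)
    exact h1⟩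
  have hfreq : ∃ᶠ N : ℕ in atTop,
      dens (fun v : HeightOneSpectrum (𝓞 F) => ∃ g, IsFrob v g ∧ g ∉ Good) N ≤ θ := by
    refine hdens.mono fun N hN => le_trans (dens_le ?_ N) hN
    rintro v ⟨g, hg, hgG⟩
    exact ⟨g, hg, fun k hk c hnil => hgG (hsub g ⟨k, hk, c, hnil⟩)⟩
  have hμX : ENNReal.ofReal (1 - θ) ≤ μ Good := by
    refine Pool.Agent.U849.SS.measure_ge μ hcl fun W hW A hA => ?_
    have h1 := engine Good hcl hconj hfreq (fun _ : Fin 1 => 1) W hW A (by
      intro g hg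
      have h2 := hg 0
      rw [mul_one] at h2
      exact hA g h2)
    simpa using h1
  have hμn : ((n * n : ℕ) : ℝ≥0∞) < (n * n : ℕ) * μ Good + 1 := by
    have h1 : ((n * n : ℕ) : ℝ≥0∞) * ENNReal.ofReal (1 - θ) ≤ (n * n : ℕ) * μ Good := by gcongr
    refine lt_of_lt_of_le ?_ (add_le_add_left h1 1)
    have h2 : ((n * n : ℕ) : ℝ≥0∞) * ENNReal.ofReal (1 - θ) + 1 =
        ENNReal.ofReal ((n * n : ℕ) * (1 - θ)) + ENNReal.ofReal 1 := by
      rw [ENNReal.ofReal_mul (Nat.cast_nonneg _), ENNReal.ofReal_natCast, ENNReal.ofReal_one]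
    rw [h2]
    refine lt_of_lt_of_le ?_ ENNReal.ofReal_add_le
    rw [← ENNReal.ofReal_natCast, ENNReal.ofReal_lt_ofReal_iff]
    · nlinarith
    · nlinarith [(Nat.cast_nonneg (n * n) : (0 : ℝ) ≤ ((n * n : ℕ) : ℝ))]
  obtain ⟨U, hUn, hUo, hU⟩ := Pool.Agent.U849.SS.main μ hcl hμn (N := n * n) hM (n * n)
    (Fin (n * n) → K) ρF (Module.finrank_fin_fun K) (Module.finrank_fin_fun K).le hcts (by
      intro x hx
      have hx' : (R x ^ M - 1) ^ (n * n) = 0 := hx
      rw [hrel, hx', map_zero])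
  refine ⟨U, hUn, hUo, fun u hu g => ?_⟩
  have h1 := hU u hu g
  rw [hρF, hρF, Matrix.trace_toLin'_eq, Matrix.trace_toLin'_eq] at h1
  have h2 : ∀ g, (R g).trace = (kap K n (ρ g)).trace := by
    intro g
    rw [hR, adm_apply]
    simp only [Matrix.trace, Matrix.diag, Matrix.reindexAlgEquiv_apply, Matrix.reindex_apply,
      Matrix.submatrix_apply]
    exact Equiv.sum_comp (finProdFinEquiv : Fin n × Fin n ≃ Fin (n * n)).symm
      (fun x => kap K n (ρ g) x x)
  rw [h2, h2] at h1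
  exact h1

/-- the case of the algebraic closure of `ℚ_p` -/
theorem scalar_on [NeZero n] (ρ : GK F →* GL (Fin n) (PadicAlgCl p)) (hρ : Continuous ρ) (hss : SS ρ)
    (θ : ℝ) (hθ0 : 0 ≤ θ) (hθ : θ * (n * n : ℕ) < 1)
    (hdens : ∃ᶠ N : ℕ in atTop, dens (fun v : HeightOneSpectrum (𝓞 F) =>
      ∃ g, IsFrob v g ∧ ∀ k : ℕ, 0 < k → ∀ c : PadicAlgCl p,
        ¬ IsNilpotent (((ρ g : GL (Fin n) (PadicAlgCl p)) : Matrix (Fin n) (Fin n) (PadicAlgCl p)) ^ k -
          c • (1 : Matrix (Fin n) (Fin n) (PadicAlgCl p)))) N ≤ θ) :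
    ∃ U : Subgroup (GK F), U.Normal ∧ IsOpen (U : Set (GK F)) ∧
      ∀ u ∈ U, ∃ c : PadicAlgCl p, (ρ u : Matrix (Fin n) (Fin n) (PadicAlgCl p)) =
        c • (1 : Matrix (Fin n) (Fin n) (PadicAlgCl p)) := by
  classical
  set j : PadicAlgCl p →+* ℂ_[p] := algebraMap (PadicAlgCl p) ℂ_[p] with hj
  have hjc : Continuous j := UniformSpace.Completion.continuous_coe _
  set r : GK F →* GL (Fin n) ℂ_[p] := (Matrix.GeneralLinearGroup.map j).comp ρ with hr
  have hrm : ∀ g, ((r g : GL (Fin n) ℂ_[p]) : Matrix (Fin n) (Fin n) ℂ_[p]) =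
      ((ρ g : GL (Fin n) (PadicAlgCl p)) : Matrix (Fin n) (Fin n) (PadicAlgCl p)).map j := fun g => rfl
  have hrc : Continuous r := by
    rw [Units.continuous_iff]
    constructor
    · exact (Units.continuous_val.comp hρ).matrix_map hjc
    · have h1 : (fun x => (((r x)⁻¹ : GL (Fin n) ℂ_[p]) : Matrix (Fin n) (Fin n) ℂ_[p])) =
          fun x => ((ρ x⁻¹ : GL (Fin n) (PadicAlgCl p)) : Matrix (Fin n) (Fin n) (PadicAlgCl p)).map j := by
        funext x
        rw [← map_inv, hrm]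
      rw [h1]
      exact (Units.continuous_val.comp (hρ.comp continuous_inv)).matrix_map hjc
  obtain ⟨U, hUn, hUo, hU⟩ := adj_trace (p := p) r hrc θ hθ0 hθ (hdens.mono fun N hN =>
    le_trans (dens_le (by
      rintro v ⟨g, hg, hbad⟩
      refine ⟨g, hg, fun k hk c hnil => ?_⟩
      apply hbad k hk (j c)
      have h1 : (r g : Matrix (Fin n) (Fin n) ℂ_[p]) ^ k - j c • (1 : Matrix (Fin n) (Fin n) ℂ_[p]) =
          j.mapMatrix (((ρ g : GL (Fin n) (PadicAlgCl p)) : Matrix (Fin n) (Fin n) (PadicAlgCl p)) ^ k -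
            c • (1 : Matrix (Fin n) (Fin n) (PadicAlgCl p))) := by
        rw [map_sub, map_pow, RingHom.mapMatrix_apply, RingHom.mapMatrix_apply, hrm]
        congr 1
        ext a b
        simp [Matrix.smul_apply, Matrix.one_apply, apply_ite j]
      rw [h1]
      exact hnil.map _) N) hN)
  have hkap : ∀ g, (kap ℂ_[p] n (r g)).trace = j ((kap (PadicAlgCl p) n (ρ g)).trace) := by
    intro g
    change (Matrix.kroneckerMap (· * ·) _ _).trace = j ((Matrix.kroneckerMap (· * ·) _ _).trace)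
    rw [Matrix.trace_kronecker, Matrix.trace_kronecker, Matrix.trace_transpose, Matrix.trace_transpose, map_mul,
      ← map_inv, ← map_inv, hrm, hrm]
    congr 1 <;> simp [Matrix.trace, _root_.map_sum]
  have hone : ∀ u ∈ U, (kap (PadicAlgCl p) n (ρ u)).trace = (n : PadicAlgCl p) * n := by
    intro u hu
    have h1 := hU u hu 1
    rw [mul_one, hkap, hkap] at h1
    rw [j.injective h1, map_one, map_one, Matrix.trace_one, Fintype.card_prod, Fintype.card_fin, Nat.cast_mul]
  exact scalar_of_trace ρ hρ hss hUo hone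

end Pool.Agent.U849.PJ
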