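import Pool.Agent.U849.PJ.Alg
import Pool.Agent.U849.IR.Main

/-!
# Semisimple representations whose adjoint representation has locally constant trace
-/

set_option autoImplicit false
set_option linter.unusedSectionVars false

namespace Pool.Agent.U849.PJ

open Module Polynomial Topology Filter
open scoped Kronecker
open Pool.Agent.R401.Img Pool.Agent.U849.FO

variable {k : Type} [Field k] [IsAlgClosed k] [CharZero k] [TopologicalSpace k] [IsTopologicalRing k]
  [T1Space k] {n : ℕ}
  {G : Type} [Group G] [TopologicalSpace G] [IsTopologicalGroup G] [CompactSpace G]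
  [TotallyDisconnectedSpace G]

/-- an irreducible group of operators with single eigenvalues which are multiplicative is scalar -/
theorem irr_scalar {k : Type} [Field k] [IsAlgClosed k] [CharZero k] {M : Type} [AddCommGroup M] [Module k M]
    [FiniteDimensional k M] [Nontrivial M] {U : Type} [Group U]
    (r : U →* End k M) (hirr : ∀ T : Submodule k M, (∀ u, ∀ w ∈ T, r u w ∈ T) → T = ⊥ ∨ T = ⊤)
    (c : U → k) (hmul : ∀ u v, c (u * v) = c u * c v)
    (hnil : ∀ u, IsNilpotent (r u - c u • (1 : End k M))) (u : U) : r u - c u • (1 : End k M) = 0 := by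
  have hspan : Submodule.span k (Set.range r) = ⊤ := by
    have h1 : Algebra.adjoin k (Set.range r) = ⊤ := by
      apply Pool.Agent.U849.SS.bt_end
      intro T hT
      refine hirr T fun u w hw => ?_
      exact hT (r u) (Algebra.subset_adjoin ⟨u, rfl⟩) ⟨w, hw, rfl⟩
    have h2 : Submonoid.closure (Set.range r) = MonoidHom.mrange r := by
      rw [← MonoidHom.coe_mrange, Submonoid.closure_eq]
    have h3 := congrArg Subalgebra.toSubmodule h1
    rw [Algebra.adjoin_eq_span, h2, MonoidHom.coe_mrange] at h3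
    rw [h3]
    rfl
  have hrtr : ∀ u, LinearMap.trace k M (r u) = finrank k M * c u := fun u => trace_of_nil (hnil u)
  apply Pool.Agent.U849.SS.eq_zero_of_trace
  intro Z
  have hZ : Z ∈ Submodule.span k (Set.range r) := by rw [hspan]; trivial
  induction hZ using Submodule.span_induction with
  | mem x hx =>
    obtain ⟨v, rfl⟩ := hx
    rw [mul_sub, mul_smul_comm, mul_one, map_sub, map_smul, ← map_mul, hrtr, hrtr, hmul, smul_eq_mul]
    ring
  | zero => simp
  | add x y _ _ hx hy => rw [add_mul, map_add, hx, hy, add_zero]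
  | smul a x _ hx => rw [smul_mul_assoc, map_smul, hx, smul_zero]

/-- a semisimple representation all of whose adjoint matrices on an open subgroup have trace `n ^ 2` is scalar on an
open subgroup -/
theorem scalar_of_trace [NeZero n] (ρ : G →* GL (Fin n) k) (hρ : Continuous ρ) (hss : SS ρ)
    {U : Subgroup G} (hUo : IsOpen (U : Set G))
    (hU : ∀ u ∈ U, (kap k n (ρ u)).trace = (n : k) * n) :
    ∃ U₁ : Subgroup G, U₁.Normal ∧ IsOpen (U₁ : Set G) ∧
      ∀ u ∈ U₁, ∃ c : k, (ρ u : Matrix (Fin n) (Fin n) k) = c • (1 : Matrix (Fin n) (Fin n) k) := by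
  classical
  have hn0 : (n : k) ≠ 0 := Nat.cast_ne_zero.2 (NeZero.ne n)
  have hcm : Continuous fun g => mt ρ g := Units.continuous_val.comp hρ
  -- the single eigenvalue
  have hnil : ∀ u ∈ U, ∃ c : k, c ≠ 0 ∧ IsNilpotent (mt ρ u - c • (1 : Matrix (Fin n) (Fin n) k)) := by
    intro u hu
    have h1 : IsNilpotent (Matrix.toLin' (kap k n (ρ u)) - 1) := by
      apply uni_of_trace
      intro m
      have h2 : Matrix.toLin' (kap k n (ρ u)) ^ m = Matrix.toLin' (kap k n (ρ (u ^ m))) := by
        rw [map_pow, map_pow]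
        exact (map_pow (Matrix.toLinAlgEquiv' : Matrix (Fin n × Fin n) (Fin n × Fin n) k ≃ₐ[k] _) _ _).symm
      rw [h2, Matrix.trace_toLin'_eq, hU _ (U.pow_mem hu m), Module.finrank_fintype_fun_eq_card,
        Fintype.card_prod, Fintype.card_fin, Nat.cast_mul]
    have h3 : IsNilpotent (kap k n (ρ u) - 1) := by
      obtain ⟨N, hN⟩ := h1
      refine ⟨N, ?_⟩
      apply (Matrix.toLinAlgEquiv' : Matrix (Fin n × Fin n) (Fin n × Fin n) k ≃ₐ[k] _).injective
      rw [map_pow, map_sub, map_one, map_zero]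
      exact hN
    exact single (A' := ((ρ u)⁻¹ : GL (Fin n) k)) (Units.inv_mul _) h3
  set c : G → k := fun g => (n : k)⁻¹ * (mt ρ g).trace with hc
  have hcc : Continuous c := continuous_const.mul hcm.matrix_trace
  have hcnil : ∀ u ∈ U, IsNilpotent (mt ρ u - c u • (1 : Matrix (Fin n) (Fin n) k)) ∧ c u ≠ 0 := by
    intro u hu
    obtain ⟨a, ha0, ha⟩ := hnil u hu
    have h1 : c u = a := by
      rw [hc]
      change (n : k)⁻¹ * (mt ρ u).trace = a
      rw [mtrace_of_nil ha, ← mul_assoc, inv_mul_cancel₀ hn0, one_mul]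
    rw [h1]
    exact ⟨ha, ha0⟩
  have hcdet : ∀ u ∈ U, (mt ρ u).det = c u ^ n := fun u hu => det_of_nil (hcnil u hu).1
  have hmt1 : mt ρ 1 = 1 := by
    change ((ρ 1 : GL (Fin n) k) : Matrix (Fin n) (Fin n) k) = 1
    rw [map_one]
    rfl
  have hmtm : ∀ a b, mt ρ (a * b) = mt ρ a * mt ρ b := by
    intro a b
    change ((ρ (a * b) : GL (Fin n) k) : Matrix (Fin n) (Fin n) k) = _
    rw [map_mul]
    rfl
  have hc1 : c 1 = 1 := by
    change (n : k)⁻¹ * (mt ρ 1).trace = 1
    rw [hmt1, Matrix.trace_one, Fintype.card_fin, inv_mul_cancel₀ hn0]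
  -- the subgroup on which `c` is multiplicative
  let S : Finset k := (nthRoots n (1 : k)).toFinset.erase 1
  let f : G × G → k := fun x => ∏ ζ ∈ S, (c (x.1 * x.2) - ζ * (c x.1 * c x.2))
  have hf : Continuous f := by
    refine continuous_finsetProd _ fun ζ _ => ?_
    exact (hcc.comp continuous_mul).sub (continuous_const.mul
      ((hcc.comp continuous_fst).mul (hcc.comp continuous_snd)))
  have hf1 : f (1, 1) ≠ 0 := by
    change ∏ ζ ∈ S, (c (1 * 1) - ζ * (c 1 * c 1)) ≠ 0
    rw [Finset.prod_ne_zero_iff]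
    intro ζ hζ h0
    rw [one_mul, hc1, mul_one, mul_one, sub_eq_zero] at h0
    exact (Finset.mem_erase.1 hζ).1 h0.symm
  have hopen : IsOpen {x | f x ≠ 0} := isOpen_ne_fun hf continuous_const
  have hnhds : {x : G × G | f x ≠ 0} ∈ 𝓝 ((1 : G), (1 : G)) := hopen.mem_nhds hf1
  rw [nhds_prod_eq] at hnhds
  obtain ⟨A, hA, B, hB, hAB⟩ := Filter.mem_prod_iff.1 hnhds
  have hmem : A ∩ B ∩ (U : Set G) ∈ 𝓝 (1 : G) :=
    Filter.inter_mem (Filter.inter_mem hA hB) (hUo.mem_nhds U.one_mem)
  obtain ⟨O, hOsub, hOo, hO1⟩ := mem_nhds_iff.1 hmem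
  obtain ⟨N, hN⟩ := ProfiniteGrp.exist_openNormalSubgroup_sub_open_nhds_of_one hOo hO1
  set U₁ : Subgroup G := N.toSubgroup with hU₁
  have hU₁n : U₁.Normal := N.isNormal'
  have hU₁o : IsOpen (U₁ : Set G) := N.isOpen'
  have hU₁U : ∀ u ∈ U₁, u ∈ U := fun u hu => (hOsub (hN hu)).2
  have hmul : ∀ u ∈ U₁, ∀ v ∈ U₁, c (u * v) = c u * c v := by
    intro u hu v hv
    have h1 : f (u, v) ≠ 0 := hAB ⟨(hOsub (hN hu)).1.1, (hOsub (hN hv)).1.2⟩
    have h2 : c (u * v) ^ n = (c u * c v) ^ n := by
      rw [← hcdet _ (hU₁U _ (U₁.mul_mem hu hv)), mul_pow, ← hcdet _ (hU₁U _ hu), ← hcdet _ (hU₁U _ hv),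
        hmtm, Matrix.det_mul]
    have hne : c u * c v ≠ 0 := mul_ne_zero (hcnil u (hU₁U _ hu)).2 (hcnil v (hU₁U _ hv)).2
    by_contra hcon
    set ζ := c (u * v) / (c u * c v) with hζ
    have h3 : ζ ^ n = 1 := by rw [hζ, div_pow, h2, div_self (pow_ne_zero _ hne)]
    have h4 : c (u * v) = ζ * (c u * c v) := by rw [hζ, div_mul_cancel₀ _ hne]
    have h5 : ζ ∈ S := by
      refine Finset.mem_erase.2 ⟨?_, ?_⟩
      · intro h6
        rw [h6, one_mul] at h4
        exact hcon h4
      · rw [Multiset.mem_toFinset, mem_nthRoots (Nat.pos_of_ne_zero (NeZero.ne n))]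
        exact h3
    apply h1
    exact Finset.prod_eq_zero h5 (sub_eq_zero.2 h4)
  have hconj : ∀ g u, c (g⁻¹ * u * g) = c u := by
    intro g u
    change (n : k)⁻¹ * (mt ρ (g⁻¹ * u * g)).trace = (n : k)⁻¹ * (mt ρ u).trace
    rw [hmtm, Matrix.trace_mul_comm, ← hmtm]
    congr 3
    group
  refine ⟨U₁, hU₁n, hU₁o, ?_⟩
  -- the subspace on which `U₁` acts by `c`
  let R : Submodule k (Fin n → k) :=
    { carrier := {x | ∀ u ∈ U₁, (mt ρ u).mulVec x = c u • x}
      add_mem' := by
        intro x y hx hy u hu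
        rw [Matrix.mulVec_add, hx u hu, hy u hu, smul_add]
      zero_mem' := by
        intro u _
        rw [Matrix.mulVec_zero, smul_zero]
      smul_mem' := by
        intro a x hx u hu
        rw [Matrix.mulVec_smul, hx u hu, smul_comm] }
  have hR : Stab ρ R := by
    intro g x hx u hu
    have h1 : g⁻¹ * u * g ∈ U₁ := by
      have := hU₁n.conj_mem u hu g⁻¹
      rwa [inv_inv] at this
    rw [Matrix.mulVec_mulVec, ← hmtm]
    have h2 : u * g = g * (g⁻¹ * u * g) := by group
    rw [h2, hmtm, ← Matrix.mulVec_mulVec, hx _ h1, hconj, Matrix.mulVec_smul]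
  obtain ⟨R', hR', hcompl⟩ := hss R hR
  have hR'bot : R' = ⊥ := by
    by_contra hne
    -- a minimal stable subspace
    have hex : ∃ d : ℕ, ∃ T : Submodule k (Fin n → k), (∀ u ∈ U₁, ∀ x ∈ T, (mt ρ u).mulVec x ∈ T) ∧
        T ≤ R' ∧ T ≠ ⊥ ∧ finrank k T = d := ⟨_, R', fun u _ x hx => hR' u x hx, le_rfl, hne, rfl⟩
    obtain ⟨T, hT, hTR, hT0, hTd⟩ := Nat.find_spec hex
    have hTmin : ∀ T' : Submodule k (Fin n → k), (∀ u ∈ U₁, ∀ x ∈ T', (mt ρ u).mulVec x ∈ T') →
        T' ≤ T → T' = ⊥ ∨ T' = T := by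
      intro T' hT' hle
      by_cases h0 : T' = ⊥
      · exact Or.inl h0
      · right
        have h1 : Nat.find hex ≤ finrank k T' := Nat.find_min' hex ⟨T', hT', hle.trans hTR, h0, rfl⟩
        rw [← hTd] at h1
        exact Submodule.eq_of_le_of_finrank_le hle h1
    have hTnt : Nontrivial T := Submodule.nontrivial_iff_ne_bot.2 hT0
    let r : U₁ →* End k T :=
      { toFun := fun u => (Matrix.toLin' (mt ρ u)).restrict (fun x hx => by
          rw [Matrix.toLin'_apply]
          exact hT u u.2 x hx)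
        map_one' := by
          ext x
          simp [LinearMap.restrict_apply, hmt1]
        map_mul' := by
          intro a b
          ext x
          simp [LinearMap.restrict_apply, hmtm, Matrix.mulVec_mulVec] }
    have hr : ∀ (u : U₁) (x : T), ((r u x : T) : Fin n → k) = (mt ρ u).mulVec x := fun u x => rfl
    have hscal : ∀ u : U₁, r u - c u • (1 : End k T) = 0 := by
      refine irr_scalar r ?_ (fun u => c u) (fun u v => hmul u u.2 v v.2) ?_
      · intro T' hT'
        have h2 := hTmin (T'.map T.subtype) (by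
          rintro u hu _ ⟨x, hx, rfl⟩
          exact ⟨r ⟨u, hu⟩ x, hT' ⟨u, hu⟩ x hx, rfl⟩) (Submodule.map_subtype_le _ _)
        rcases h2 with h2 | h2
        · left
          exact Submodule.map_injective_of_injective T.injective_subtype (by rw [h2, Submodule.map_bot])
        · right
          apply Submodule.map_injective_of_injective T.injective_subtype
          rw [h2, Submodule.map_top, Submodule.range_subtype]
      · intro u
        obtain ⟨N, hN⟩ := (hcnil u (hU₁U _ u.2)).1
        refine ⟨N, ?_⟩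
        have h1 : ∀ (m : ℕ) (x : T), ((((r u - c u • (1 : End k T)) ^ m) x : T) : Fin n → k) =
            ((mt ρ u - c u • (1 : Matrix (Fin n) (Fin n) k)) ^ m).mulVec x := by
          intro m
          induction m with
          | zero => intro x; rw [pow_zero, pow_zero, Matrix.one_mulVec]; rfl
          | succ m ih =>
            intro x
            rw [pow_succ, pow_succ, Module.End.mul_apply, ih, ← Matrix.mulVec_mulVec]
            congr 1
            rw [Matrix.sub_mulVec, Matrix.smul_mulVec, Matrix.one_mulVec]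
            rfl
        ext x
        rw [h1, hN, Matrix.zero_mulVec]
        rfl
    have hTR2 : T ≤ R := by
      intro x hx u hu
      have h1 := congrArg (fun z => ((z ⟨x, hx⟩ : T) : Fin n → k)) (hscal ⟨u, hu⟩)
      have h2 : (mt ρ u).mulVec x - c u • x = 0 := h1
      exact sub_eq_zero.1 h2
    apply hT0
    rw [eq_bot_iff, ← hcompl.inf_eq_bot]
    exact le_inf hTR2 hTR
  have hRtop : R = ⊤ := by
    have := hcompl.sup_eq_top
    rwa [hR'bot, sup_bot_eq] at this
  intro u hu
  refine ⟨c u, ?_⟩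
  apply Matrix.toLin'.injective
  apply LinearMap.ext
  intro x
  have hx : x ∈ R := by rw [hRtop]; trivial
  rw [Matrix.toLin'_apply, Matrix.toLin'_apply, Matrix.smul_mulVec, Matrix.one_mulVec]
  exact hx u hu

end Pool.Agent.U849.PJ
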