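import Pool.Agent.U849.IR.Main

/-!
# Mean values of class functions at Frobenius elements; projectively finite representations
-/

set_option autoImplicit false
set_option linter.unusedSectionVars false

namespace Pool.Agent.U849.PJ

open NumberField Filter Topology IsDedekindDomain Module
open Pool.Agent.W401.Cheb Pool.Agent.W569.FM Pool.Agent.R401.Img Pool.Agent.R401 Pool.Agent
open Pool.Agent.U849.DG Pool.Agent.U849.IR

variable {F : Type} [Field F] [NumberField F] {n : ℕ}

/-- the mean value of the real numbers `b v` -/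
noncomputable def meanVal (E : Set (HeightOneSpectrum (𝓞 F))) (b : HeightOneSpectrum (𝓞 F) → ℝ) (x : ℕ) : ℝ :=
  (∑ᶠ v ∈ {v : HeightOneSpectrum (𝓞 F) | Ideal.absNorm v.asIdeal ≤ x ∧ v ∉ E}, b v) / Nat.primeCounting x

/-- **the mean value of a class function** -/
theorem limit_class (N : Subgroup (GK F)) [N.Normal] (hN : IsOpen (N : Set (GK F)))
    [Fintype (GK F ⧸ N)] (w : GK F ⧸ N → ℝ) (hw : ∀ a γ, w (a * γ * a⁻¹) = w γ)
    {E : Set (HeightOneSpectrum (𝓞 F))} (hE : DensityZero E) {b : HeightOneSpectrum (𝓞 F) → ℝ}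
    (hb : ∀ v, v ∉ E → ∀ P : Ideal (ZBar F), Above v P → ∀ g, FrobAt (Ideal.absNorm v.asIdeal) P g →
      w (g : GK F ⧸ N) = b v) :
    Tendsto (meanVal E b) atTop (𝓝 ((Nat.card (GK F ⧸ N) : ℝ)⁻¹ * ∑ γ : GK F ⧸ N, w γ)) := by
  classical
  set V : Finset ℝ := Finset.univ.image w with hV
  set C : ℝ → Set (GK F) := fun y => {σ | w (σ : (GK F ⧸ N)) = y} with hC
  have hCconj : ∀ y, ∀ σ ∈ C y, ∀ α : GK F, α * σ * α⁻¹ ∈ C y := by
    intro y σ hσ α
    change w ((α : (GK F ⧸ N)) * (σ : (GK F ⧸ N)) * (α : (GK F ⧸ N))⁻¹) = y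
    rw [hw]
    exact hσ
  have hCU : ∀ y, ∀ σ ∈ C y, ∀ u ∈ N, σ * u ∈ C y := by
    intro y σ hσ u hu
    change w ((σ * u : GK F) : (GK F ⧸ N)) = y
    have h1 : ((σ * u : GK F) : (GK F ⧸ N)) = (σ : (GK F ⧸ N)) := by
      rw [QuotientGroup.eq, mul_inv_rev, inv_mul_cancel_right]
      exact inv_mem hu
    rw [h1]
    exact hσ
  have hcheb := fun y => Pool.Agent.Y142.chebK F N hN (C y) (hCconj y) (hCU y)
  have hlim := fun y => dens_compl hE (hcheb y)
  have hval : ∀ v, v ∉ E → ∀ y, b v = y ↔ ∃ σ ∈ C y, IsFrob v σ := by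
    intro v hv y
    constructor
    · intro h
      obtain ⟨σ, Q, hQ, hQv, hσ⟩ := Pool.Agent.W401.Frob.exists_frob v
      refine ⟨σ, ?_, Q, hQ, hQv, hσ⟩
      change w (σ : (GK F ⧸ N)) = y
      rw [hb v hv Q ⟨hQ, hQv⟩ σ hσ]
      exact h
    · rintro ⟨σ, hσC, Q, hQ, hQv, hσ⟩
      have h2 : w (σ : (GK F ⧸ N)) = y := hσC
      rw [hb v hv Q ⟨hQ, hQv⟩ σ hσ] at h2
      exact h2
  have hmem : ∀ v, v ∉ E → b v ∈ V := by
    intro v hv
    obtain ⟨σ, hσ, -⟩ := (hval v hv _).1 rfl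
    have h1 : w (σ : (GK F ⧸ N)) = b v := hσ
    rw [← h1]
    exact Finset.mem_image_of_mem _ (Finset.mem_univ _)
  have hmean : ∀ x : ℕ, meanVal E b x =
      ∑ y ∈ V, y * dens (fun v => v ∉ E ∧ ∃ σ ∈ C y, IsFrob v σ) x := by
    intro x
    have hxf : {v : HeightOneSpectrum (𝓞 F) | Ideal.absNorm v.asIdeal ≤ x ∧ v ∉ E}.Finite :=
      (finite_norm_le F x).subset fun _ h => h.1
    unfold meanVal
    rw [finsum_mem_eq_finite_toFinset_sum _ hxf]
    rw [← Finset.sum_fiberwise_of_maps_to (s := hxf.toFinset) (t := V) (g := fun v => b v) (by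
      intro v hv
      exact hmem v ((Set.Finite.mem_toFinset _).1 hv).2), Finset.sum_div]
    refine Finset.sum_congr rfl fun y _ => ?_
    have h1 : ∑ v ∈ hxf.toFinset with b v = y, b v =
        ((hxf.toFinset.filter fun v => b v = y).card : ℝ) * y := by
      rw [Finset.sum_congr rfl fun v hv => (Finset.mem_filter.1 hv).2, Finset.sum_const, nsmul_eq_mul]
    have h2 : Nat.card {v : HeightOneSpectrum (𝓞 F) // Ideal.absNorm v.asIdeal ≤ x ∧
        (v ∉ E ∧ ∃ σ ∈ C y, IsFrob v σ)} = (hxf.toFinset.filter fun v => b v = y).card := by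
      refine Nat.subtype_card _ fun v => ?_
      rw [Finset.mem_filter, Set.Finite.mem_toFinset, Set.mem_ofPred_eq]
      constructor
      · rintro ⟨⟨h3, h4⟩, h5⟩
        exact ⟨h3, h4, (hval v h4 y).1 h5⟩
      · rintro ⟨h3, h4, h5⟩
        exact ⟨⟨h3, h4⟩, (hval v h4 y).2 h5⟩
    unfold dens
    rw [h1, h2]
    ring
  have h3 : Tendsto (meanVal E b) atTop (𝓝 (∑ y ∈ V, y *
      ((((QuotientGroup.mk : GK F → (GK F ⧸ N)) '' C y).ncard : ℝ) / (Nat.card (GK F ⧸ N) : ℝ)))) := by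
    rw [show meanVal E b = fun x => ∑ y ∈ V, y * dens (fun v => v ∉ E ∧ ∃ σ ∈ C y, IsFrob v σ) x from
      funext hmean]
    exact tendsto_finsetSum _ fun y _ => (hlim y).const_mul y
  have h4 : ∑ y ∈ V, y * ((((QuotientGroup.mk : GK F → (GK F ⧸ N)) '' C y).ncard : ℝ) / (Nat.card (GK F ⧸ N) : ℝ)) =
      (Nat.card (GK F ⧸ N) : ℝ)⁻¹ * ∑ γ : (GK F ⧸ N), w γ := by
    have h5 : ∀ y, (QuotientGroup.mk : GK F → (GK F ⧸ N)) '' C y = ((Finset.univ.filter fun γ : (GK F ⧸ N) => w γ = y : Finset (GK F ⧸ N)) : Set (GK F ⧸ N)) := by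
      intro y
      ext γ
      rw [Finset.coe_filter, Set.mem_ofPred_eq]
      constructor
      · rintro ⟨σ, hσ, rfl⟩
        exact ⟨Finset.mem_univ _, hσ⟩
      · rintro ⟨-, h⟩
        induction γ using QuotientGroup.induction_on with
        | H σ => exact ⟨σ, h, rfl⟩
    rw [← Finset.sum_fiberwise_of_maps_to (s := Finset.univ) (t := V) (g := w)
      (fun γ _ => Finset.mem_image_of_mem _ (Finset.mem_univ _)), Finset.mul_sum]
    refine Finset.sum_congr rfl fun y _ => ?_
    rw [h5, Set.ncard_coe_finset, Finset.sum_congr rfl fun γ hγ => (Finset.mem_filter.1 hγ).2,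
      Finset.sum_const, nsmul_eq_mul]
    ring
  rw [h4] at h3
  exact h3

section orth

variable {k : Type} [Field k] {G : Type} [Group G]

/-- **orthogonality** for representations which are scalar on a subgroup of finite index -/
theorem avg_proj [CharZero k] (ρ : G →* GL (Fin n) k) (N : Subgroup G) [N.Normal] [Fintype (G ⧸ N)]
    (hN : ∀ u ∈ N, ∃ c : k, (ρ u : Matrix (Fin n) (Fin n) k) = c • (1 : Matrix (Fin n) (Fin n) k)) :
    ∃ f : G ⧸ N → k, (∀ g : G, f (g : G ⧸ N) = (mt ρ g⁻¹).trace * (mt ρ g).trace) ∧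
      (Nat.card (G ⧸ N) : k)⁻¹ * ∑ γ : G ⧸ N, f γ = finrank k (commutant ρ) := by
  classical
  have h0 : (Nat.card (G ⧸ N) : k) ≠ 0 := Nat.cast_ne_zero.2 Nat.card_pos.ne'
  have : Invertible (Nat.card (G ⧸ N) : k) := invertibleOfNonzero h0
  let A : Representation k G ((Fin n → k) →ₗ[k] (Fin n → k)) := Representation.linHom (rep ρ) (rep ρ)
  have hA : N ≤ MonoidHom.ker A := by
    intro u hu
    rw [MonoidHom.mem_ker]
    obtain ⟨c, hc⟩ := hN u hu
    apply LinearMap.ext
    intro f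
    change Matrix.toLin' (mt ρ u) ∘ₗ f ∘ₗ Matrix.toLin' (mt ρ u⁻¹) = f
    have h1 : mt ρ u = c • (1 : Matrix (Fin n) (Fin n) k) := hc
    have h2 : mt ρ u * mt ρ u⁻¹ = 1 := by
      rw [← mt_mul, mul_inv_cancel]
      unfold Pool.Agent.R401.Img.mt
      rw [map_one, Units.val_one]
    have h3 : c • mt ρ u⁻¹ = 1 := by
      rw [h1, smul_mul_assoc, one_mul] at h2
      exact h2
    apply LinearMap.ext
    intro x
    change (mt ρ u).mulVec (f ((mt ρ u⁻¹).mulVec x)) = f x
    rw [h1, Matrix.smul_mulVec, Matrix.one_mulVec, ← map_smul, ← Matrix.smul_mulVec, h3, Matrix.one_mulVec]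
  let B : Representation k (G ⧸ N) ((Fin n → k) →ₗ[k] (Fin n → k)) := QuotientGroup.lift N A hA
  have hB : ∀ g : G, B (g : G ⧸ N) = A g := fun g => rfl
  refine ⟨B.character, fun g => ?_, ?_⟩
  · unfold Representation.character
    rw [hB]
    have h1 := Representation.char_linHom (rep ρ) (rep ρ) g
    unfold Representation.character at h1
    rw [rep_apply, rep_apply, Matrix.trace_toLin'_eq, Matrix.trace_toLin'_eq] at h1
    exact h1
  · rw [Representation.card_inv_mul_sum_char_eq_finrank B, ← finrank_eq]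
    have h1 : B.invariants = A.invariants := by
      ext f
      rw [Representation.mem_invariants, Representation.mem_invariants]
      constructor
      · intro h g
        exact h (g : G ⧸ N)
      · intro h γ
        induction γ using QuotientGroup.induction_on with
        | H g => exact h g
    rw [h1]

end orth

/-- **the mean square** of a projectively finite representation -/
theorem limit_proj {k : Type} [Field k] [CharZero k] (ι : k →+* ℂ) (ρ : GK F →* GL (Fin n) k)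
    (N : Subgroup (GK F)) [N.Normal] (hN : IsOpen (N : Set (GK F)))
    (hρ : ∀ u ∈ N, ∃ c : k, (ρ u : Matrix (Fin n) (Fin n) k) = c • (1 : Matrix (Fin n) (Fin n) k))
    {E : Set (HeightOneSpectrum (𝓞 F))} (hE : DensityZero E) {b : HeightOneSpectrum (𝓞 F) → ℝ}
    (hb : ∀ v, v ∉ E → ∀ P : Ideal (ZBar F), Above v P → ∀ g, FrobAt (Ideal.absNorm v.asIdeal) P g →
      ι ((mt ρ g⁻¹).trace * (mt ρ g).trace) = b v) :
    Tendsto (meanVal E b) atTop (𝓝 (finrank k (commutant ρ) : ℝ)) := by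
  classical
  have hfin : Finite (GK F ⧸ N) := Subgroup.quotient_finite_of_isOpen _ hN
  have hft : Fintype (GK F ⧸ N) := Fintype.ofFinite _
  obtain ⟨f, hf, havg⟩ := avg_proj ρ N hρ
  have hfc : ∀ a γ, f (a * γ * a⁻¹) = f γ := by
    intro a γ
    induction a using QuotientGroup.induction_on with
    | H a =>
      induction γ using QuotientGroup.induction_on with
      | H g =>
        have h1 : ((a : GK F ⧸ N) * (g : GK F ⧸ N) * (a : GK F ⧸ N)⁻¹) = ((a * g * a⁻¹ : GK F) : GK F ⧸ N) := rfl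
        rw [h1, hf, hf]
        have h2 : (a * g * a⁻¹)⁻¹ = a * (g⁻¹ * a⁻¹) := by group
        have h3 : ∀ x : GK F, (mt ρ (a * (x * a⁻¹))).trace = (mt ρ x).trace := by
          intro x
          rw [mt_mul, Matrix.trace_mul_comm, ← mt_mul, inv_mul_cancel_right]
        rw [h2, h3, mul_assoc a g a⁻¹, h3]
  have h1 := limit_class N hN (fun γ => (ι (f γ)).re) (fun a γ => by rw [hfc]) hE (b := b)
    (fun v hv P hP g hg => by
      change (ι (f (g : GK F ⧸ N))).re = b v
      rw [hf, hb v hv P hP g hg, Complex.ofReal_re])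
  have h2 : (Nat.card (GK F ⧸ N) : ℝ)⁻¹ * ∑ γ : GK F ⧸ N, (ι (f γ)).re = (finrank k (commutant ρ) : ℝ) := by
    have h3 := congrArg (fun z => (ι z).re) havg
    simp only [map_mul, map_inv₀, map_natCast, _root_.map_sum] at h3
    rw [← Complex.ofReal_natCast, ← Complex.ofReal_inv, Complex.re_ofReal_mul, Complex.re_sum,
      Complex.natCast_re] at h3
    exact h3
  rw [h2] at h1
  exact h1

end Pool.Agent.U849.PJ
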