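import Pool.Agent.U849.PJ.Cov
import Pool.Agent.U849.PJ.Lim

/-!
# The optimal bound
-/

set_option autoImplicit false
set_option linter.unusedSectionVars false

namespace Pool.Agent.U849.PJ

open Filter Topology Module MeasureTheory MeasureTheory.Measure
open scoped ENNReal
open Pool.Agent.U849.SS (Cts)
open Pool.Agent.U849.FO
open NumberField IsDedekindDomain Pool.Agent.W401.Cheb Pool.Agent.R401.Sup
open Pool.Agent.W569.FM Pool.Agent.R401.Img Pool.Agent.R401.Eng Pool.Agent.R401.Sup2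
open Pool.Agent.R401.Sup3 Pool.Agent.R401.Sup4

section tl

variable {k : Type} [NormedField k] {n : ℕ} {G : Type} [Group G]

/-- scalar matrices -/
noncomputable def sc (k : Type) [NormedField k] (n : ℕ) : kˣ →* GL (Fin n) k :=
  Units.map (algebraMap k (Matrix (Fin n) (Fin n) k)).toMonoidHom

theorem sc_comm (z : kˣ) (A : GL (Fin n) k) : sc k n z * A = A * sc k n z := by
  apply Units.ext
  exact Algebra.commutes _ _

/-- the twist by the inverse of the root of the determinant -/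
noncomputable def tl (ρ : G →* GL (Fin n) k) (δ : G →* kˣ) : cov n δ →* GL (Fin n) k where
  toFun x := sc k n ((x : G × kˣ).2)⁻¹ * ρ (x : G × kˣ).1
  map_one' := by simp
  map_mul' a b := by
    change sc k n ((a : G × kˣ).2 * (b : G × kˣ).2)⁻¹ * ρ ((a : G × kˣ).1 * (b : G × kˣ).1) = _
    rw [mul_inv, map_mul, map_mul, mul_assoc, mul_assoc]
    congr 1
    rw [← mul_assoc, sc_comm, mul_assoc]

theorem tl_val (ρ : G →* GL (Fin n) k) (δ : G →* kˣ) (x : cov n δ) :
    ((tl ρ δ x : GL (Fin n) k) : Matrix (Fin n) (Fin n) k) =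
      ((((x : G × kˣ).2)⁻¹ : kˣ) : k) • ((ρ (x : G × kˣ).1 : GL (Fin n) k) : Matrix (Fin n) (Fin n) k) := by
  change algebraMap k (Matrix (Fin n) (Fin n) k) _ * _ = _
  rw [← Algebra.smul_def]

theorem tl_cont [TopologicalSpace G] (ρ : G →* GL (Fin n) k) (hρ : Continuous ρ) (δ : G →* kˣ) :
    Continuous (tl ρ δ) := by
  have hval : ∀ x : cov n δ, ((tl ρ δ x : GL (Fin n) k) : Matrix (Fin n) (Fin n) k) =
      ((((x : G × kˣ).2)⁻¹ : kˣ) : k) • ((ρ (x : G × kˣ).1 : GL (Fin n) k) : Matrix (Fin n) (Fin n) k) := tl_val ρ δ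
  have hinv : ∀ x : cov n δ, (((tl ρ δ x)⁻¹ : GL (Fin n) k) : Matrix (Fin n) (Fin n) k) =
      (((x : G × kˣ).2 : kˣ) : k) • (((ρ (x : G × kˣ).1)⁻¹ : GL (Fin n) k) : Matrix (Fin n) (Fin n) k) := by
    intro x
    rw [← map_inv, hval]
    change ((((x : G × kˣ).2)⁻¹⁻¹ : kˣ) : k) • ((ρ ((x : G × kˣ).1)⁻¹ : GL (Fin n) k) : Matrix (Fin n) (Fin n) k) = _
    rw [inv_inv, map_inv]
  have h1 : Continuous fun x : cov n δ => (x : G × kˣ).1 := continuous_fst.comp continuous_subtype_val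
  have h2 : Continuous fun x : cov n δ => (x : G × kˣ).2 := continuous_snd.comp continuous_subtype_val
  rw [Units.continuous_iff]
  constructor
  · rw [show ((Units.val : GL (Fin n) k → _) ∘ (tl ρ δ)) = fun x : cov n δ => ((((x : G × kˣ).2)⁻¹ : kˣ) : k) •
      ((ρ (x : G × kˣ).1 : GL (Fin n) k) : Matrix (Fin n) (Fin n) k) from funext hval]
    exact (Units.continuous_val.comp (continuous_inv.comp h2)).smul
      (Units.continuous_val.comp (hρ.comp h1))
  · rw [show (fun x : cov n δ => (((tl ρ δ x)⁻¹ : GL (Fin n) k) : Matrix (Fin n) (Fin n) k)) = fun x : cov n δ =>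
      (((x : G × kˣ).2 : kˣ) : k) • (((ρ (x : G × kˣ).1)⁻¹ : GL (Fin n) k) : Matrix (Fin n) (Fin n) k) from
      funext hinv]
    exact (Units.continuous_val.comp h2).smul (Units.continuous_val.comp (continuous_inv.comp (hρ.comp h1)))

end tl

variable {F : Type} [Field F] [NumberField F] {n : ℕ} {p : ℕ} [hp : Fact p.Prime]

/-- **semisimple representations with many Frobenius elements with eigenvalue ratios of finite order are
projectively finite** -/
theorem scalar_main [NeZero n] (ρ : GK F →* GL (Fin n) (PadicAlgCl p)) (hρ : Continuous ρ) (hss : SS ρ)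
    (θ : ℝ) (hθ0 : 0 ≤ θ) (hθ : θ * n < 1)
    (hdens : ∃ᶠ N : ℕ in atTop, dens (fun v : HeightOneSpectrum (𝓞 F) =>
      ∃ g, IsFrob v g ∧ ∀ k : ℕ, 0 < k → ∀ c : PadicAlgCl p,
        ¬ IsNilpotent (((ρ g : GL (Fin n) (PadicAlgCl p)) : Matrix (Fin n) (Fin n) (PadicAlgCl p)) ^ k -
          c • (1 : Matrix (Fin n) (Fin n) (PadicAlgCl p)))) N ≤ θ) :
    ∃ U : Subgroup (GK F), U.Normal ∧ IsOpen (U : Set (GK F)) ∧
      ∀ u ∈ U, ∃ c : PadicAlgCl p, (ρ u : Matrix (Fin n) (Fin n) (PadicAlgCl p)) =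
        c • (1 : Matrix (Fin n) (Fin n) (PadicAlgCl p)) := by
  classical
  have hn : 0 < n := Nat.pos_of_ne_zero (NeZero.ne n)
  set δ : GK F →* (PadicAlgCl p)ˣ := Matrix.GeneralLinearGroup.det.comp ρ with hδd
  have hδv : ∀ g, ((δ g : (PadicAlgCl p)ˣ) : PadicAlgCl p) = (mt ρ g).det := fun g => rfl
  have hmc : Continuous fun g => mt ρ g := Units.continuous_val.comp hρ
  have hδ : Continuous δ := by
    rw [Units.continuous_iff]
    constructor
    · exact hmc.matrix_det
    · have h1 : (fun x => (((δ x)⁻¹ : (PadicAlgCl p)ˣ) : PadicAlgCl p)) = fun x => (mt ρ x⁻¹).det := by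
        funext x
        rw [← map_inv, hδv]
      rw [h1]
      exact (hmc.comp continuous_inv).matrix_det
  let H : Subgroup (GK F × (PadicAlgCl p)ˣ) := cov n δ
  have hHc : CompactSpace H := isCompact_iff_compactSpace.1 (cov_compact hn hδ)
  have hHt : TotallyDisconnectedSpace H := cov_td δ
  let π : H →* GK F := (MonoidHom.fst _ _).comp H.subtype
  have hπc : Continuous π := continuous_fst.comp continuous_subtype_val
  have hπs : Function.Surjective π := by
    intro g
    obtain ⟨z, hz⟩ := IsAlgClosed.exists_pow_nat_eq ((δ g : (PadicAlgCl p)ˣ) : PadicAlgCl p) hn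
    have hz0 : z ≠ 0 := by
      rintro rfl
      rw [zero_pow hn.ne'] at hz
      exact (δ g).ne_zero hz.symm
    refine ⟨⟨(g, Units.mk0 z hz0), ?_⟩, rfl⟩
    change (Units.mk0 z hz0) ^ n = δ g
    apply Units.ext
    rw [Units.val_pow_eq_pow_val]
    exact hz
  let σ : H →* GL (Fin n) (PadicAlgCl p) := tl ρ δ
  have hσc : Continuous σ := tl_cont ρ hρ δ
  have hσv : ∀ x : H, mt σ x = ((((x : GK F × (PadicAlgCl p)ˣ).2)⁻¹ : (PadicAlgCl p)ˣ) : PadicAlgCl p) • mt ρ (π x) :=
    tl_val ρ δ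
  have hσd : ∀ x : H, (mt σ x).det = 1 := by
    intro x
    have h1 : ((x : GK F × (PadicAlgCl p)ˣ).2) ^ n = δ (π x) := x.2
    have h2 := congrArg (fun u : (PadicAlgCl p)ˣ => (u : PadicAlgCl p)) h1
    simp only [Units.val_pow_eq_pow_val] at h2
    rw [hσv, Matrix.det_smul, Fintype.card_fin, ← hδv, ← h2, ← mul_pow, Units.inv_mul, one_pow]
  -- torsion
  set j : PadicAlgCl p →+* ℂ_[p] := algebraMap (PadicAlgCl p) ℂ_[p] with hj
  have hjc : Continuous j := UniformSpace.Completion.continuous_coe _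
  let Rm : H →* Matrix (Fin n) (Fin n) ℂ_[p] := j.mapMatrix.toMonoidHom.comp ((Units.coeHom _).comp σ)
  have hRm : ∀ x, Rm x = j.mapMatrix (mt σ x) := fun x => rfl
  have hmapinj : Function.Injective (j.mapMatrix : Matrix (Fin n) (Fin n) (PadicAlgCl p) →+* _) := by
    intro A B hAB
    ext a b
    exact j.injective (congrFun (congrFun hAB a) b)
  have hRmc : Continuous Rm := (Units.continuous_val.comp hσc).matrix_map hjc
  obtain ⟨M, hM, htors'⟩ := torsK (p := p) hRmc
  have htors : ∀ (x : H) (m N : ℕ), 0 < m → (mt σ x ^ m - 1) ^ N = 0 → (mt σ x ^ M - 1) ^ N = 0 := by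
    intro x m N hm h
    apply hmapinj
    have h1 : ∀ a b : ℕ, j.mapMatrix ((mt σ x ^ a - 1) ^ b) = (Rm x ^ a - 1) ^ b := by
      intro a b
      rw [hRm, map_pow, map_sub, map_pow, map_one]
    rw [h1, map_zero]
    refine htors' x m N hm ?_
    rw [← h1, h, map_zero]
  -- finite ratios
  have hfin : ∀ x : H, (∃ m : ℕ, 0 < m ∧ ∃ c : PadicAlgCl p, IsNilpotent (mt ρ (π x) ^ m -
      c • (1 : Matrix (Fin n) (Fin n) (PadicAlgCl p)))) → (mt σ x ^ M - 1) ^ n = 0 := by
    rintro x ⟨m, hm, c, hnil⟩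
    set z : PadicAlgCl p := ((((x : GK F × (PadicAlgCl p)ˣ).2)⁻¹ : (PadicAlgCl p)ˣ) : PadicAlgCl p) with hz
    set c' : PadicAlgCl p := z ^ m * c with hc'
    have h1 : IsNilpotent (mt σ x ^ m - c' • (1 : Matrix (Fin n) (Fin n) (PadicAlgCl p))) := by
      have h2 : mt σ x ^ m - c' • (1 : Matrix (Fin n) (Fin n) (PadicAlgCl p)) =
          z ^ m • (mt ρ (π x) ^ m - c • (1 : Matrix (Fin n) (Fin n) (PadicAlgCl p))) := by
        rw [hσv, smul_pow, smul_sub, smul_smul]
      rw [h2]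
      exact hnil.smul _
    have h3 : c' ^ n = 1 := by
      have h4 := det_of_nil h1
      rw [Matrix.det_pow, hσd, one_pow] at h4
      exact h4.symm
    have hc0 : c' ≠ 0 := by
      intro h0
      rw [h0, zero_pow hn.ne'] at h3
      exact zero_ne_one h3
    obtain ⟨N, hN⟩ := h1
    have h5 : (c'⁻¹ • mt σ x ^ m - 1) ^ N = 0 := by
      have h6 : c'⁻¹ • mt σ x ^ m - 1 = c'⁻¹ • (mt σ x ^ m - c' • (1 : Matrix (Fin n) (Fin n) (PadicAlgCl p))) := by
        rw [smul_sub, smul_smul, inv_mul_cancel₀ hc0, one_smul]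
      rw [h6, smul_pow, hN, smul_zero]
    have h7 := pow_sub_nil h5 n
    rw [smul_pow, inv_pow, h3, inv_one, one_smul, ← pow_mul] at h7
    exact htors x (m * n) n (Nat.mul_pos hm hn) (nil_pow ⟨N, h7⟩)
  -- the good elements
  set R : GK F →* Matrix (Fin (n * n)) (Fin (n * n)) (PadicAlgCl p) := adm (PadicAlgCl p) ρ with hR
  have hRc : Continuous R := adm_cont hρ
  set Good : Set (GK F) := {g | (R g ^ M - 1) ^ (n * n) = 0} with hGood
  have hcl : IsClosed Good := isClosed_singleton.preimage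
    (f := fun g => (R g ^ M - 1) ^ (n * n)) (((hRc.pow M).sub continuous_const).pow (n * n))
  have hsub : ∀ g, (∃ m : ℕ, 0 < m ∧ ∃ c : PadicAlgCl p, IsNilpotent (mt ρ g ^ m -
      c • (1 : Matrix (Fin n) (Fin n) (PadicAlgCl p)))) → g ∈ Good := by
    intro g hg
    obtain ⟨x, rfl⟩ := hπs g
    have h1 := hfin x hg
    have h2 : IsNilpotent (((σ x : GL (Fin n) (PadicAlgCl p)) : Matrix (Fin n) (Fin n) (PadicAlgCl p)) ^ M -
        (1 : PadicAlgCl p) • (1 : Matrix (Fin n) (Fin n) (PadicAlgCl p))) := ⟨n, by rw [one_smul]; exact h1⟩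
    have h3 := nil_scalar h2
    have h4 : kap (PadicAlgCl p) n (σ x) = kap (PadicAlgCl p) n (ρ (π x)) := by
      have h5 : σ x = sc (PadicAlgCl p) n (((x : GK F × (PadicAlgCl p)ˣ).2)⁻¹) * ρ (π x) := rfl
      rw [h5, map_mul]
      have h6 : kap (PadicAlgCl p) n (sc (PadicAlgCl p) n (((x : GK F × (PadicAlgCl p)ˣ).2)⁻¹)) = 1 := by
        change Matrix.kroneckerMap (· * ·) _ _ = 1
        rw [← map_inv, inv_inv]
        change Matrix.kroneckerMap (· * ·) (algebraMap (PadicAlgCl p) (Matrix (Fin n) (Fin n) (PadicAlgCl p)) _)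
          (algebraMap (PadicAlgCl p) (Matrix (Fin n) (Fin n) (PadicAlgCl p)) _).transpose = 1
        rw [Algebra.algebraMap_eq_smul_one, Algebra.algebraMap_eq_smul_one, Matrix.transpose_smul,
          Matrix.transpose_one, Matrix.smul_kronecker, Matrix.kronecker_smul, smul_smul,
          Matrix.one_kronecker_one, Units.inv_mul, one_smul]
      rw [h6, one_mul]
    rw [h4] at h3
    refine nil_pow ?_
    have h2 : R (π x) ^ M - 1 = Matrix.reindexAlgEquiv (PadicAlgCl p) (PadicAlgCl p)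
        (finProdFinEquiv : Fin n × Fin n ≃ Fin (n * n)) (kap (PadicAlgCl p) n (ρ (π x)) ^ M - 1) := by
      rw [map_sub, map_pow, map_one]
      rfl
    rw [h2]
    exact h3.map _
  have hgood : ∀ x : H, π x ∈ Good → (mt σ x ^ M - 1) ^ n = 0 := by
    intro x hx
    have hx' : (R (π x) ^ M - 1) ^ (n * n) = 0 := hx
    have h2 : R (π x) ^ M - 1 = Matrix.reindexAlgEquiv (PadicAlgCl p) (PadicAlgCl p)
        (finProdFinEquiv : Fin n × Fin n ≃ Fin (n * n)) (kap (PadicAlgCl p) n (ρ (π x)) ^ M - 1) := by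
      rw [map_sub, map_pow, map_one]
      rfl
    have h3 : (kap (PadicAlgCl p) n (ρ (π x)) ^ M - 1) ^ (n * n) = 0 := by
      apply (Matrix.reindexAlgEquiv (PadicAlgCl p) (PadicAlgCl p)
        (finProdFinEquiv : Fin n × Fin n ≃ Fin (n * n))).injective
      rw [map_pow, map_zero, ← h2]
      exact hx'
    rw [← map_pow] at h3
    obtain ⟨c, -, hc⟩ := single (A := ((ρ (π x) ^ M : GL (Fin n) (PadicAlgCl p)) :
      Matrix (Fin n) (Fin n) (PadicAlgCl p))) (A' := (((ρ (π x) ^ M)⁻¹ : GL (Fin n) (PadicAlgCl p)) :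
      Matrix (Fin n) (Fin n) (PadicAlgCl p))) (Units.inv_mul _) ⟨n * n, h3⟩
    rw [Units.val_pow_eq_pow_val] at hc
    exact hfin x ⟨M, hM, c, hc⟩
  have hconj : ∀ g ∈ Good, ∀ x : GK F, x * g * x⁻¹ ∈ Good := by
    intro g hg x
    have hg' : (R g ^ M - 1) ^ (n * n) = 0 := hg
    change (R (x * g * x⁻¹) ^ M - 1) ^ (n * n) = 0
    have hx1 : R x⁻¹ * R x = 1 := by rw [← map_mul, inv_mul_cancel, map_one]
    have hx2 : R x * R x⁻¹ = 1 := by rw [← map_mul, mul_inv_cancel, map_one]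
    have hcp : ∀ (a : Matrix (Fin (n * n)) (Fin (n * n)) (PadicAlgCl p)) (k : ℕ),
        (R x * a * R x⁻¹) ^ k = R x * a ^ k * R x⁻¹ := by
      intro a k
      induction k with
      | zero => rw [pow_zero, pow_zero, mul_one, hx2]
      | succ k ih =>
        rw [pow_succ, ih, pow_succ]
        simp only [mul_assoc]
        rw [← mul_assoc (R x⁻¹) (R x), hx1, one_mul]
    rw [map_mul, map_mul, hcp]
    have h1 : R x * R g ^ M * R x⁻¹ - 1 = R x * (R g ^ M - 1) * R x⁻¹ := by
      rw [mul_sub, sub_mul, mul_one, hx2]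
    rw [h1, hcp, hg', mul_zero, zero_mul]
  -- the measures
  let _m : MeasurableSpace (GK F) := borel _
  have _b : BorelSpace (GK F) := ⟨rfl⟩
  let K₀ : TopologicalSpace.PositiveCompacts (GK F) := ⊤
  let μ : Measure (GK F) := haarMeasure K₀
  have hμ1 : IsProbabilityMeasure μ := ⟨by
    have h1 := haarMeasure_self (K₀ := K₀)
    exact h1⟩
  let _m' : MeasurableSpace H := borel _
  have _b' : BorelSpace H := ⟨rfl⟩
  let K₁ : TopologicalSpace.PositiveCompacts H := ⊤
  let ν : Measure H := haarMeasure K₁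
  have hν1 : IsProbabilityMeasure ν := ⟨by
    have h1 := haarMeasure_self (K₀ := K₁)
    exact h1⟩
  have hfreq : ∃ᶠ N : ℕ in atTop,
      dens (fun v : HeightOneSpectrum (𝓞 F) => ∃ g, IsFrob v g ∧ g ∉ Good) N ≤ θ := by
    refine hdens.mono fun N hN => le_trans (dens_le ?_ N) hN
    rintro v ⟨g, hg, hgG⟩
    exact ⟨g, hg, fun k hk c hnil => hgG (hsub g ⟨k, hk, c, hnil⟩)⟩
  have hμX : ENNReal.ofReal (1 - θ) ≤ μ Good := by
    refine Pool.Agent.U849.SS.measure_ge μ hcl fun W hW A hA => ?_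
    have h1 := engine Good hcl hconj hfreq (fun _ : Fin 1 => 1) W hW A (by
      intro g hg
      have h2 := hg 0
      rw [mul_one] at h2
      exact hA g h2)
    simpa using h1
  have hmap : Measure.map π ν = μ := by
    have h1 : IsHaarMeasure (Measure.map π ν) := isHaarMeasure_map_of_isFiniteMeasure ν π hπc hπs
    have h2 : IsProbabilityMeasure (Measure.map π ν) := isProbabilityMeasure_map hπc.measurable.aemeasurable
    exact isHaarMeasure_eq_of_isProbabilityMeasure _ _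
  set X : Set H := {x | (mt σ x ^ M - 1) ^ n = 0} with hX
  have hXcl : IsClosed X := isClosed_singleton.preimage (f := fun x => (Pool.Agent.R401.Img.mt σ x ^ M - 1) ^ n)
    ((((Units.continuous_val.comp hσc).pow M).sub continuous_const).pow n)
  have hνX : ENNReal.ofReal (1 - θ) ≤ ν X := by
    refine hμX.trans ?_
    rw [← hmap, Measure.map_apply hπc.measurable hcl.measurableSet]
    exact measure_mono fun x hx => hgood x hx
  have hνn : (n : ℝ≥0∞) < n * ν X + 1 := by
    have h1 : (n : ℝ≥0∞) * ENNReal.ofReal (1 - θ) ≤ n * ν X := by gcongr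
    refine lt_of_lt_of_le ?_ (add_le_add_left h1 1)
    have h2 : (n : ℝ≥0∞) * ENNReal.ofReal (1 - θ) + 1 =
        ENNReal.ofReal (n * (1 - θ)) + ENNReal.ofReal 1 := by
      rw [ENNReal.ofReal_mul (Nat.cast_nonneg _), ENNReal.ofReal_natCast, ENNReal.ofReal_one]
    rw [h2]
    refine lt_of_lt_of_le ?_ ENNReal.ofReal_add_le
    rw [← ENNReal.ofReal_natCast, ENNReal.ofReal_lt_ofReal_iff]
    · nlinarith
    · nlinarith [(Nat.cast_nonneg n : (0 : ℝ) ≤ (n : ℝ))]
  -- the representation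
  let φ : Matrix (Fin n) (Fin n) (PadicAlgCl p) →+* End (PadicAlgCl p) (Fin n → PadicAlgCl p) :=
    ((Matrix.toLinAlgEquiv' : Matrix (Fin n) (Fin n) (PadicAlgCl p) ≃ₐ[PadicAlgCl p]
      End (PadicAlgCl p) (Fin n → PadicAlgCl p)) : _ →+* _)
  let ρF : H →* End (PadicAlgCl p) (Fin n → PadicAlgCl p) := φ.toMonoidHom.comp ((Units.coeHom _).comp σ)
  have hρF' : ∀ g, ρF g = φ (mt σ g) := fun g => rfl
  have hρF : ∀ g, ρF g = Matrix.toLin' (mt σ g) := fun g => rfl
  have hsm : Continuous fun x => mt σ x := Units.continuous_val.comp hσc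
  have hcts : Cts ρF := by
    intro φ v
    have h1 : (fun g => φ (ρF g v)) = fun g => ∑ i, (∑ j, mt σ g i j * v j) *
        φ (fun j => if i = j then 1 else 0) := by
      funext g
      rw [LinearMap.pi_apply_eq_sum_univ φ, hρF, Matrix.toLin'_apply]
      rfl
    rw [h1]
    have h4 : ∀ i, Continuous fun g => ∑ j, mt σ g i j * v j := fun i =>
      continuous_finsetSum _ fun j _ => (hsm.matrix_elem i j).mul continuous_const
    exact continuous_finsetSum _ fun i _ => (h4 i).mul continuous_const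
  obtain ⟨U, hUn, hUo, hU⟩ := Pool.Agent.U849.SS.main ν hXcl hνn (N := n) hM n
    (Fin n → PadicAlgCl p) ρF (Module.finrank_fin_fun _) (Module.finrank_fin_fun _).le hcts (by
      intro x hx
      have hx' : (mt σ x ^ M - 1) ^ n = 0 := hx
      have h1 : (ρF x ^ M - 1) ^ n = φ ((mt σ x ^ M - 1) ^ n) := by
        rw [map_pow, map_sub, map_pow, map_one, hρF']
      rw [h1, hx', map_zero])
  have htr : ∀ u ∈ U, (mt σ u).trace = n := by
    intro u hu
    have h1 := hU u hu 1
    rw [mul_one, map_one, hρF, Matrix.trace_toLin'_eq, LinearMap.trace_one, Module.finrank_fin_fun] at h1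
    exact h1
  have hkap : ∀ u ∈ U, (kap (PadicAlgCl p) n (σ u)).trace = (n : PadicAlgCl p) * n := by
    intro u hu
    change (Matrix.kroneckerMap (· * ·) _ _).trace = _
    rw [Matrix.trace_kronecker, Matrix.trace_transpose, ← map_inv]
    exact congrArg₂ (· * ·) (htr u hu) (htr u⁻¹ (U.inv_mem hu))
  have hssσ : SS σ := by
    have hst : ∀ W : Submodule (PadicAlgCl p) (Fin n → PadicAlgCl p), Stab σ W ↔ Stab ρ W := by
      intro W
      constructor
      · intro h g x hx
        obtain ⟨y, rfl⟩ := hπs g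
        have h1 := W.smul_mem (((y : GK F × (PadicAlgCl p)ˣ).2 : (PadicAlgCl p)ˣ) : PadicAlgCl p) (h y x hx)
        rw [hσv, Matrix.smul_mulVec, smul_smul, Units.mul_inv, one_smul] at h1
        exact h1
      · intro h y x hx
        rw [hσv, Matrix.smul_mulVec]
        exact W.smul_mem _ (h (π y) x hx)
    intro W hW
    obtain ⟨W', hW', hc⟩ := hss W ((hst W).1 hW)
    exact ⟨W', (hst W').2 hW', hc⟩
  obtain ⟨U₁, hU₁n, hU₁o, hU₁⟩ := scalar_of_trace σ hσc hssσ hUo hkap
  refine ⟨U₁.map π, Subgroup.Normal.map hU₁n π hπs, ?_, ?_⟩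
  · have hfinQ : Finite (H ⧸ U₁) := Subgroup.quotient_finite_of_isOpen _ hU₁o
    have hfi : U₁.FiniteIndex := Subgroup.finiteIndex_of_finite_quotient
    have hfi' : (U₁.map π).FiniteIndex := ⟨by
      have h1 : (U₁.map π).index ∣ U₁.index := Subgroup.index_map_dvd U₁ hπs
      exact fun h0 => hfi.index_ne_zero (Nat.eq_zero_of_zero_dvd (h0 ▸ h1))⟩
    apply Subgroup.isOpen_of_isClosed_of_finiteIndex
    rw [Subgroup.coe_map]
    exact ((Subgroup.isClosed_of_isOpen U₁ hU₁o).isCompact.image hπc).isClosed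
  · rintro _ ⟨x, hx, rfl⟩
    obtain ⟨c, hc⟩ := hU₁ x hx
    refine ⟨(((x : GK F × (PadicAlgCl p)ˣ).2 : (PadicAlgCl p)ˣ) : PadicAlgCl p) * c, ?_⟩
    have h1 : mt ρ (π x) = (((x : GK F × (PadicAlgCl p)ˣ).2 : (PadicAlgCl p)ˣ) : PadicAlgCl p) • mt σ x := by
      rw [hσv, smul_smul, Units.mul_inv, one_smul]
    have h2 : mt σ x = c • (1 : Matrix (Fin n) (Fin n) (PadicAlgCl p)) := hc
    change mt ρ (π x) = _
    rw [h1, h2, smul_smul]

end Pool.Agent.U849.PJ
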